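import Mathlib

namespace Pool.Agent.Results.MP_965ec6_al.Bigger

open Equiv

/-- action of a state on words; `d i` is the transition of letter `i`, `r x` the production of state `x` -/
def act {A S : Type} (d : S → A → A) (r : A → S → S) : A → List S → List S
  | _, [] => []
  | x, i :: w => r x i :: act d r (d i x) w

/-- the group generated by the automaton, a group of bijections of the set of words -/
def grp {A S : Type} (d : S → A → A) (r : A → S → S) : Subgroup (Perm (List S)) :=
  Subgroup.closure {g | ∃ x, ⇑g = act d r x}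

abbrev K := Perm (Fin 4)
abbrev H := Perm (Fin 3)
abbrev L := Option (Fin 3)

def cyc : K := ⟨![1, 2, 3, 0], ![3, 0, 1, 2], by decide, by decide⟩
def tau : K := ⟨![1, 0, 2, 3], ![1, 0, 2, 3], by decide, by decide⟩
def sg : H := ⟨![1, 2, 0], ![2, 0, 1], by decide, by decide⟩
def tr : H := ⟨![1, 0, 2], ![1, 0, 2], by decide, by decide⟩

def step (i : L) : K := if i.isSome then cyc else tau
def rho (x : Fin 4) : H := if x = 0 then tr else if x = 1 then sg else 1

def dd (i : L) (x : Fin 4) : Fin 4 := step i x
def rr (x : Fin 4) (i : L) : L := i.map (rho x)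

def run (f : K → H) : K → List L → List L
  | _, [] => []
  | g, i :: w => i.map (f g) :: run f (step i * g) w

lemma step_map (i : L) (h : Fin 3 → Fin 3) : step (i.map h) = step i := by
  cases i <;> rfl

lemma run_mul (f f' : K → H) (g : K) (w : List L) :
    run (f * f') g w = run f g (run f' g w) := by
  induction w generalizing g with
  | nil => rfl
  | cons i w ih =>
    simp only [run, step_map, ih]
    congr 1
    cases i <;> simp

lemma run_one (g : K) (w : List L) : run 1 g w = w := by
  induction w generalizing g with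
  | nil => rfl
  | cons i w ih => simp [run, ih]

def Phi : (K → H) →* Perm (List L) where
  toFun f := ⟨run f 1, run f⁻¹ 1, fun w => by rw [← run_mul, inv_mul_cancel, run_one],
    fun w => by rw [← run_mul, mul_inv_cancel, run_one]⟩
  map_one' := by ext1 w; exact run_one 1 w
  map_mul' f f' := by ext1 w; exact run_mul f f' 1 w

def gen (x : Fin 4) : K → H := fun g => rho (g x)

lemma act_eq (x : Fin 4) (g : K) (w : List L) : act dd rr (g x) w = run (gen x) g w := by
  induction w generalizing g with
  | nil => rfl
  | cons i w ih =>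
    simp only [act, run, rr, gen]
    congr 1
    exact ih (step i * g)

lemma Phi_gen (x : Fin 4) : ⇑(Phi (gen x)) = act dd rr x := by
  funext w
  exact (act_eq x 1 w).symm

lemma grp_eq : grp dd rr = (Subgroup.closure (Set.range gen)).map Phi := by
  rw [MonoidHom.map_closure, grp]
  congr 1
  ext g
  constructor
  · rintro ⟨x, hx⟩
    exact ⟨gen x, ⟨x, rfl⟩, Equiv.coe_fn_injective ((Phi_gen x).trans hx.symm)⟩
  · rintro ⟨_, ⟨x, rfl⟩, rfl⟩
    exact ⟨x, Phi_gen x⟩

def wp : List L → K → K
  | [], g => g
  | i :: w, g => wp w (step i * g)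

lemma run_append (f : K → H) (g : K) (w v : List L) :
    run f g (w ++ v) = run f g w ++ run f (wp w g) v := by
  induction w generalizing g with
  | nil => rfl
  | cons i w ih => simp [run, wp, ih]

lemma reach (g : K) : ∃ w : List L, wp w 1 = g := by
  have key : ∀ g ∈ Submonoid.closure ({cyc, tau} : Set K), ∀ h, ∃ w : List L, wp w h = g * h := by
    intro g hg
    induction hg using Submonoid.closure_induction with
    | mem x hx =>
      rcases hx with rfl | rfl
      · exact fun h => ⟨[some 0], rfl⟩
      · exact fun h => ⟨[none], rfl⟩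
    | one => exact fun h => ⟨[], by simp [wp]⟩
    | mul x y _ _ hx hy =>
      intro h
      obtain ⟨w, hw⟩ := hy h
      obtain ⟨v, hv⟩ := hx (y * h)
      refine ⟨w ++ v, ?_⟩
      have : ∀ (w v : List L) (h : K), wp (w ++ v) h = wp v (wp w h) := by
        intro w v
        induction w with
        | nil => intro h; rfl
        | cons i w ih => intro h; simp [wp, ih]
      rw [this, hw, hv, mul_assoc]
  have hc : cyc ∈ Submonoid.closure ({cyc, tau} : Set K) := Submonoid.subset_closure (by simp)
  have ht : tau ∈ Submonoid.closure ({cyc, tau} : Set K) := Submonoid.subset_closure (by simp)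
  have all : ∀ g : K, ∃ a b c d : Fin 4,
      g = cyc ^ a.val * tau * cyc ^ b.val * tau * cyc ^ c.val * tau ^ d.val := by decide +kernel
  obtain ⟨a, b, c, d, h⟩ := all g
  have : g ∈ Submonoid.closure ({cyc, tau} : Set K) := by
    rw [h]
    exact mul_mem (mul_mem (mul_mem (mul_mem (mul_mem (pow_mem hc _) ht) (pow_mem hc _)) ht)
      (pow_mem hc _)) (pow_mem ht _)
  simpa using key g this 1

lemma Phi_inj : Function.Injective Phi := by
  rw [injective_iff_map_eq_one]
  intro f hf
  funext g
  obtain ⟨w, hw⟩ := reach g
  ext1 i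
  have h1 : run f 1 (w ++ [some i]) = w ++ [some i] := congrArg (fun p : Perm (List L) => p (w ++ [some i])) hf
  have h2 : run f 1 w = w := congrArg (fun p : Perm (List L) => p w) hf
  rw [run_append, h2, hw] at h1
  simpa [run] using h1

abbrev P := {p : Fin 4 × Fin 4 // p.1 ≠ p.2}

def pr (g : K) : P := ⟨(g.symm 0, g.symm 1), by simp⟩

def E (v : P → ℕ) : K → H := fun g => (sg ^ 2) ^ v (pr g)

lemma E_mem (v : P → ℕ) : E v ∈ Subgroup.closure (Set.range gen) := by
  induction v using Pi.single_induction with
  | zero =>
    have : E 0 = 1 := by funext g; simp [E]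
    rw [this]; exact one_mem _
  | add f g hf hg =>
    have : E (f + g) = E f * E g := by funext k; simp [E, pow_add]
    rw [this]; exact mul_mem hf hg
  | single p m =>
    have h1 : ∀ (p : P) (g : K), (gen p.1.1 * gen p.1.2 ^ 2 * (gen p.1.1)⁻¹ * (gen p.1.2 ^ 2)⁻¹) g =
        if pr g = p then sg ^ 2 else 1 := by decide +kernel
    have : E (Pi.single p m) = (gen p.1.1 * gen p.1.2 ^ 2 * (gen p.1.1)⁻¹ * (gen p.1.2 ^ 2)⁻¹) ^ m := by
      funext g
      rw [Pi.pow_apply, h1, E]
      by_cases h : pr g = p
      · simp [h]
      · simp [h]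
    rw [this]
    have hg : ∀ x, gen x ∈ Subgroup.closure (Set.range gen) := fun x => Subgroup.subset_closure ⟨x, rfl⟩
    exact pow_mem (mul_mem (mul_mem (mul_mem (hg _) (pow_mem (hg _) _)) (inv_mem (hg _)))
      (inv_mem (pow_mem (hg _) _))) _

instance : Finite (grp dd rr) := by
  rw [grp_eq]
  exact Set.Finite.to_subtype (Set.Finite.image _ (Set.toFinite _))

lemma big : 3 ^ 12 ≤ Nat.card (grp dd rr) := by
  let F : (P → Fin 3) → grp dd rr := fun v =>
    ⟨Phi (E fun p => (v p).val), by rw [grp_eq]; exact ⟨_, E_mem _, rfl⟩⟩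
  have hF : Function.Injective F := by
    intro v v' h
    have h1 : E (fun p => (v p).val) = E (fun p => (v' p).val) := Phi_inj (congrArg Subtype.val h)
    funext p
    have hs : ∀ p : P, ∃ g : K, pr g = p := by decide +kernel
    obtain ⟨g, rfl⟩ := hs p
    have h2 := congrFun h1 g
    have h3 : ∀ a b : Fin 3, (sg ^ 2) ^ a.val = (sg ^ 2) ^ b.val → a = b := by decide +kernel
    exact h3 _ _ h2
  have := Nat.card_le_card_of_injective F hF
  rw [Nat.card_eq_fintype_card, Fintype.card_fun] at this
  have hP : Fintype.card P = 12 := by decide +kernel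
  simpa [hP] using this

theorem result : ∃ (A S : Type) (_ : Fintype A) (_ : Fintype S) (d : S → A → A) (r : A → Perm S),
    Fintype.card S = 4 ∧ Fintype.card A = 4 ∧
    (∀ i, Function.Bijective (d i)) ∧
    (∀ j, Function.Bijective (fun x => d ((r x).symm j) x)) ∧
    (∀ x, Function.Bijective (act d (fun x => r x) x)) ∧
    Finite (grp d (fun x => r x)) ∧
    (Fintype.card S).factorial ^ (Fintype.card A) < Nat.card (grp d (fun x => r x)) := by
  have hr : (fun x => ⇑((rho x).optionCongr)) = rr := by
    funext x i; rfl
  refine ⟨Fin 4, L, inferInstance, inferInstance, dd, fun x => (rho x).optionCongr, by decide,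
    by decide, by decide +kernel, by decide +kernel, ?_, ?_, ?_⟩
  · intro x
    rw [hr, ← Phi_gen]
    exact Equiv.bijective _
  · rw [hr]; infer_instance
  · rw [hr]
    refine lt_of_lt_of_le ?_ big
    decide +kernel

end Pool.Agent.Results.MP_965ec6_al.Bigger
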